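import Pool.Agent.Work.MP_d7201b_al.Tor.Rel

/-!
# The relations between the values `[x^h₀, x^h₁, …, x^hₘ]`, for words of arbitrary length

Formal part: words over an alphabet `α`, polynomials `List (ℤ × List α)`, and computable relations
`lieRel`, `pRel`, `npRel`.  Soundness: all of them vanish under `val hc x`.
-/

set_option autoImplicit false

namespace Pool.Agent.Work.MP_d7201b_al

namespace L2

/-! ## Formal part -/

section Formal

variable {α β : Type*}

/-- Formal combinations of words. -/
abbrev Poly (α : Type*) := List (ℤ × List α)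

/-- All ways to split a list into two complementary sublists. -/
def splits : List α → List (List α × List α)
  | [] => [([], [])]
  | a :: l => (splits l).flatMap fun p => [(a :: p.1, p.2), (p.1, a :: p.2)]

/-- The words of the part of `w h^j` which is multilinear in the letters `vs`; here `h` acts on
words by `sh` (on every letter) and then multiplies by a product of letters. -/
def pw (sh : α → α) : ℕ → List α → List α → List (List α)
  | 0, w, [] => [w]
  | 0, _, _ :: _ => []
  | j + 1, w, vs => (splits vs).flatMap fun p => (pw sh j w p.1).map fun w' => w'.map sh ++ p.2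

/-- The expansion of `ad [l₀, …, lₛ]`; the argument is the reversed list `[lₛ, …, l₀]`. -/
def adE : List α → List (ℤ × List α)
  | [] => []
  | [a] => [(1, [a])]
  | n :: m :: l => (adE (m :: l)).flatMap fun t => [(t.1, t.2 ++ [n]), (-t.1, n :: t.2)]

/-- `[l₀, …, lₛ, z, rest] + [[z, [l₀, …, lₛ]], rest]` -/
def lieRel (l : List α) (z : α) (rest : List α) : Poly α :=
  (1, l ++ z :: rest) :: (adE l.reverse).map fun t => (t.1, z :: (t.2 ++ rest))

/-- The coefficients `1, -4, 6, -4, 1` of `(X - 1)⁴`. -/
def w4 : ℕ → ℤ
  | 0 => 1
  | 1 => -4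
  | 2 => 6
  | 3 => -4
  | 4 => 1
  | _ => 0

/-- The part of `u (h - 1)⁴ rest` which is multilinear in the letters `vs`. -/
def pRel (sh : α → α) (u : α) (vs rest : List α) : Poly α :=
  [4, 3, 2, 1, 0].flatMap fun j => (pw sh j [u] vs).map fun w => (w4 j, w ++ rest)

/-- `u (n - 1)⁴ rest` in lowest weight, `n` a product of the letters `ms` -/
def npRel (u : α) (ms rest : List α) : Poly α :=
  ms.flatMap fun a => ms.flatMap fun b => ms.flatMap fun c => ms.map fun d =>
    (1, u :: a :: b :: c :: d :: rest)

/-- Evaluation. -/
def ev {V : Type*} [AddCommGroup V] (F : List α → V) (P : Poly α) : V :=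
  (P.map fun t => t.1 • F t.2).sum

/-- Renaming of the letters. -/
def ren (f : α → β) (P : Poly α) : Poly β := P.map fun t => (t.1, t.2.map f)

section Ev

variable {V : Type*} [AddCommGroup V] (F : List α → V)

@[simp] theorem ev_nil : ev F ([] : Poly α) = 0 := rfl

@[simp] theorem ev_cons (t : ℤ × List α) (P : Poly α) : ev F (t :: P) = t.1 • F t.2 + ev F P := by
  simp [ev]

theorem ev_append (P Q : Poly α) : ev F (P ++ Q) = ev F P + ev F Q := by
  simp [ev]

theorem ev_ren (f : α → β) (F' : List β → V) (P : Poly α) :
    ev F' (ren f P) = ev (fun w => F' (w.map f)) P := by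
  simp [ev, ren, Function.comp_def]

end Ev

theorem splits_map (f : α → β) (l : List α) :
    splits (l.map f) = (splits l).map fun p => (p.1.map f, p.2.map f) := by
  induction l with
  | nil => rfl
  | cons a l ih =>
    simp only [List.map_cons, splits, ih, List.flatMap_map, List.map_flatMap]
    rfl

theorem pw_map (f : α → β) (sh : α → α) (sh' : β → β) (hs : ∀ a, f (sh a) = sh' (f a)) (j : ℕ)
    (w vs : List α) : pw sh' j (w.map f) (vs.map f) = (pw sh j w vs).map (List.map f) := by
  induction j generalizing vs with
  | zero => cases vs <;> rfl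
  | succ j ih =>
    simp only [pw, splits_map, List.flatMap_map, List.map_flatMap, ih, List.map_map]
    congr 1
    funext p
    congr 1
    funext w'
    simp only [Function.comp_apply, List.map_append, List.map_map]
    congr 1
    apply List.map_congr_left
    intro a _
    exact (hs a).symm

theorem adE_map (f : α → β) (l : List α) :
    adE (l.map f) = (adE l).map fun t => (t.1, t.2.map f) := by
  induction l with
  | nil => rfl
  | cons n l ih =>
    cases l with
    | nil => rfl
    | cons m l =>
      simp only [List.map_cons] at ih ⊢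
      simp only [adE, ih, List.flatMap_map, List.map_flatMap]
      congr 1
      funext t
      simp

theorem ren_lieRel (f : α → β) (l : List α) (z : α) (rest : List α) :
    ren f (lieRel l z rest) = lieRel (l.map f) (f z) (rest.map f) := by
  simp only [ren, lieRel, List.map_cons, List.map_append, List.map_map, ← List.map_reverse,
    adE_map, Function.comp_def]

theorem ren_pRel (f : α → β) (sh : α → α) (sh' : β → β) (hs : ∀ a, f (sh a) = sh' (f a)) (u : α)
    (vs rest : List α) :
    ren f (pRel sh u vs rest) = pRel sh' (f u) (vs.map f) (rest.map f) := by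
  have h : ∀ j, pw sh' j [f u] (vs.map f) = (pw sh j [u] vs).map (List.map f) := fun j =>
    pw_map f sh sh' hs j [u] vs
  simp only [ren, pRel, List.map_flatMap, h, List.map_map]
  congr 1
  funext j
  congr 1
  funext w
  simp

theorem ren_npRel (f : α → β) (u : α) (ms rest : List α) :
    ren f (npRel u ms rest) = npRel (f u) (ms.map f) (rest.map f) := by
  simp only [ren, npRel, List.map_flatMap, List.flatMap_map, List.map_map]
  rfl

end Formal

/-! ## The multilinear parts of `θ₁(a) (h - 1)⁴` -/

section Multi

/-- Successive application. -/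
def comp {V : Type*} [AddCommGroup V] (l : List (V →+ V)) (v : V) : V :=
  l.foldl (fun v ψ => ψ v) v

section

variable {V : Type*} [AddCommGroup V]

@[simp] theorem comp_nil (v : V) : comp [] v = v := rfl

@[simp] theorem comp_cons (ψ : V →+ V) (l : List (V →+ V)) (v : V) :
    comp (ψ :: l) v = comp l (ψ v) := rfl

theorem comp_append (l l' : List (V →+ V)) (v : V) : comp (l ++ l') v = comp l' (comp l v) := by
  simp [comp]

theorem comp_add (l : List (V →+ V)) (v v' : V) : comp l (v + v') = comp l v + comp l v' := by
  induction l generalizing v v' with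
  | nil => rfl
  | cons ψ l ih => simp only [comp_cons, map_add, ih]

theorem comp_zero (l : List (V →+ V)) : comp l (0 : V) = 0 := by
  induction l with
  | nil => rfl
  | cons ψ l ih => simp only [comp_cons, map_zero, ih]

theorem comp_neg (l : List (V →+ V)) (v : V) : comp l (-v) = - comp l v := by
  induction l generalizing v with
  | nil => rfl
  | cons ψ l ih => simp only [comp_cons, map_neg, ih]

theorem comp_zsmul (l : List (V →+ V)) (n : ℤ) (v : V) : comp l (n • v) = n • comp l v := by
  induction l generalizing v with
  | nil => rfl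
  | cons ψ l ih => simp only [comp_cons, map_zsmul, ih]

theorem comp_sum (l : List (V →+ V)) (vs : List V) : comp l vs.sum = (vs.map (comp l)).sum := by
  induction vs with
  | nil => simp [comp_zero]
  | cons v vs ih => simp only [List.sum_cons, comp_add, ih, List.map_cons]

/-- The multilinear part of `v h^j`. -/
def mop (φ : V →+ V) : ℕ → List (V →+ V) → V → V
  | 0, [], v => v
  | 0, _ :: _, _ => 0
  | j + 1, ψs, v => ((splits ψs).map fun p => comp p.2 (φ (mop φ j p.1 v))).sum

theorem comp_both (l : List (V →+ V)) (p : V × V) :
    comp (l.map Sys.both) p = (comp l p.1, comp l p.2) := by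
  induction l generalizing p with
  | nil => rfl
  | cons ψ l ih => simp only [List.map_cons, comp_cons, ih, Sys.both_apply]

theorem sum_prod (l : List (V × V)) : l.sum = ((l.map Prod.fst).sum, (l.map Prod.snd).sum) := by
  induction l with
  | nil => rfl
  | cons a l ih => rw [List.sum_cons, ih]; rfl

theorem sum_map_add {ι : Type*} (l : List ι) (f g : ι → V) :
    (l.map fun i => f i + g i).sum = (l.map f).sum + (l.map g).sum := by
  induction l with
  | nil => simp
  | cons a l ih => simp only [List.map_cons, List.sum_cons, ih]; abel

theorem sum_flatMap {ι κ : Type*} (l : List ι) (f : ι → List κ) (g : κ → V) :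
    ((l.flatMap f).map g).sum = (l.map fun i => ((f i).map g).sum).sum := by
  induction l with
  | nil => rfl
  | cons a l ih => simp [ih]

theorem mop_dual (φ ψ : V →+ V) (ψs : List (V →+ V)) (j : ℕ) (v : V) :
    mop (Sys.dual φ ψ) j (ψs.map Sys.both) (v, 0) = (mop φ j ψs v, mop φ j (ψ :: ψs) v) := by
  induction j generalizing ψs with
  | zero => cases ψs <;> rfl
  | succ j ih =>
    simp only [mop, splits_map, List.map_map, Function.comp_def, ih, comp_both, Sys.dual_apply]
    rw [sum_prod]
    simp only [List.map_map, Function.comp_def]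
    refine Prod.ext rfl ?_
    simp only [splits]
    rw [sum_flatMap]
    simp only [List.map_cons, List.map_nil, List.sum_cons, List.sum_nil, add_zero, comp_cons,
      comp_add]

/-- The multilinear part of `v (h - 1)⁴`. -/
def quartM (φ : V →+ V) (ψs : List (V →+ V)) (v : V) : V :=
  mop φ 4 ψs v - 4 • mop φ 3 ψs v + 6 • mop φ 2 ψs v - 4 • mop φ 1 ψs v + mop φ 0 ψs v

end

universe u v

/-- The multilinear parts of the relation `[a, h, h, h, h] = 1`. -/
theorem engel_multi (q : ℕ) : ∀ {A : Type u} [Group A] {F : Filt A} {V : Type v}
    [AddCommGroup V] (T : Sys F V) {h a : A} {φ : V →+ V} (_ : T.IsOp h φ) (_ : a ∈ F.S 1)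
    (_ : ∀ g, engel a g 4 = 1) (ns : List A) (ψs : List (V →+ V))
    (_ : List.Forall₂ (fun n ψ => T.IsBr n ψ) ns ψs) (_ : ns.length = q),
    quartM φ ψs (T.θ 1 a) = 0 := by
  induction q with
  | zero =>
    intro A _ F V _ T h a φ ho ha he ns ψs hb hq
    obtain rfl : ns = [] := List.length_eq_zero_iff.1 hq
    obtain rfl : ψs = [] := by cases hb; rfl
    have h1 := Sys.engel_rel ho ha (he h)
    simpa [quartM, mop, splits] using h1
  | succ q ih =>
    intro A _ F V _ T h a φ ho ha he ns ψs hb hq
    cases hb with
    | nil => simp at hq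
    | @cons n ψ ns ψs hn hb =>
      have hq' : ns.length = q := by simpa using hq
      have ho' := ho.prod hn
      have he' : ∀ g : A × A, engel (a, a) g 4 = 1 := by
        rintro ⟨g1, g2⟩
        rw [Sys.engel_pair, he, he]; rfl
      have hb' : List.Forall₂ (fun n ψ => T.prod.IsBr n ψ) (ns.map fun n => (n, n))
          (ψs.map Sys.both) := by
        rw [List.forall₂_map_left_iff, List.forall₂_map_right_iff]
        exact hb.imp fun n ψ h => h.prod
      have h1 := ih T.prod ho' (F.diag_mem ha) he' _ _ hb' (by simpa using hq')
      rw [Sys.prod_diag _ le_rfl] at h1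
      have h2 := congrArg Prod.snd h1
      simp only [quartM, mop_dual, Prod.snd_add, Prod.snd_sub, Prod.smul_snd, Prod.snd_zero] at h2
      exact h2

end Multi

/-! ## Soundness -/

section Sound

variable {G : Type*} [Group G] {N : Subgroup G} [hN : N.Normal] {c : ℕ}
  (hc : N.lowerCentralSeries (c + 1) = ⊥) (x : G)

/-- Brackets with the conjugates `x^h`, `h` in the list. -/
noncomputable def brs (l : List G) (v : List G → Last N c hc) : List G → Last N c hc :=
  comp (l.map fun h => brN hc (cj x h)) v

/-- The values `[x^h₀, …, x^hₘ]`. -/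
noncomputable def val : List G → (List G → Last N c hc)
  | [] => 0
  | h :: t => brs hc x t ((baseSys hc).θ 1 (cj x h))

/-- The commutators `[x^h₀, …, x^hₘ]`, for the reversed list `[hₘ, …, h₀]`. -/
def comR (x : G) : List G → G
  | [] => 1
  | [h] => cj x h
  | h :: h' :: t => comm (comR x (h' :: t)) (cj x h)

@[simp] theorem brs_nil (v : List G → Last N c hc) : brs hc x [] v = v := rfl

theorem brs_cons (h : G) (t : List G) (v : List G → Last N c hc) :
    brs hc x (h :: t) v = brs hc x t (brN hc (cj x h) v) := rfl

theorem brs_append (l l' : List G) (v : List G → Last N c hc) :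
    brs hc x (l ++ l') v = brs hc x l' (brs hc x l v) := by
  simp only [brs, List.map_append, comp_append]

theorem val_append {l : List G} (hl : l ≠ []) (l' : List G) :
    val hc x (l ++ l') = brs hc x l' (val hc x l) := by
  cases l with
  | nil => exact absurd rfl hl
  | cons h t => simp only [List.cons_append, val, brs_append]

variable {x} (hx : x ∈ N)

include hx

theorem comR_mem : ∀ (l : List G), l ≠ [] → comR x l ∈ (lcsFilt N).S l.length
  | [], h => absurd rfl h
  | [h], _ => cj_mem hx h
  | h :: h' :: t, _ => (lcsFilt N).comm (comR_mem (h' :: t) (by simp)) (t := 1) (cj_mem hx h)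

theorem val_reverse : ∀ (l : List G), l ≠ [] →
    val hc x l.reverse = (baseSys hc).θ l.length (comR x l)
  | [], h => absurd rfl h
  | [h], _ => rfl
  | h :: h' :: t, _ => by
    have ih := val_reverse (h' :: t) (by simp)
    rw [List.reverse_cons, val_append hc x (by simp), ih]
    show brN hc (cj x h) _ = _
    rw [br_eq hc hx (by simp) (comR_mem hx (h' :: t) (by simp)) (cj_mem hx h)]
    rfl

omit hx in
theorem ad_step {A : Type*} [Group A] {F : Filt A} {V : Type*} [AddCommGroup V] (T : Sys F V)
    {i j k : ℕ} (hi : 1 ≤ i) (hj : 1 ≤ j) (hk : 1 ≤ k) {u y z : A}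
    (hu : u ∈ F.S i) (hy : y ∈ F.S j) (hz : z ∈ F.S k) :
    T.θ (i + j + k) (comm u (comm y z)) =
      T.θ (i + j + k) (comm (comm u y) z) - T.θ (i + j + k) (comm (comm u z) y) := by
  have h := T.jacobi hi hj hk hu hy hz
  have m1 : comm u (comm y z) ∈ F.S (i + j + k) := by
    have := F.comm hu (F.comm hy hz)
    rwa [← add_assoc] at this
  have e1 : comm (comm y z) u = (comm u (comm y z))⁻¹ := by unfold comm; group
  rw [e1, T.inv (by omega) m1] at h
  have muz : comm u z ∈ F.S (i + k) := F.comm hu hz
  have e2 : comm z u = (comm u z)⁻¹ := by unfold comm; group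
  have h4 := T.comm_add_left (i := i + k) (j := j) (by omega) hj (inv_mem muz) muz hy
  rw [inv_mul_cancel] at h4
  have e3 : comm (1 : A) y = 1 := by unfold comm; group
  rw [e3, T.one (by omega), ← e2, show i + k + j = i + j + k by omega] at h4
  rw [eq_neg_of_add_eq_zero_left h4.symm] at h
  rw [← sub_eq_zero, ← neg_eq_zero, ← h]
  abel

/-- The bracket with a commutator. -/
theorem adE_sound : ∀ (l : List G), l ≠ [] → ∀ (k : ℕ) (u : G), 1 ≤ k → u ∈ (lcsFilt N).S k →
    (baseSys hc).θ (k + l.length) (comm u (comR x l)) =
      ((adE l).map fun t => t.1 • brs hc x t.2 ((baseSys hc).θ k u)).sum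
  | [], h => absurd rfl h
  | [h], _ => by
    intro k u hk hu
    simp only [adE, List.map_cons, List.map_nil, List.sum_cons, List.sum_nil, add_zero, one_smul]
    rw [brs_cons, brs_nil, br_eq hc hx hk hu (cj_mem hx h)]
    rfl
  | h :: h' :: t, _ => by
    intro k u hk hu
    have hm := comR_mem hx (h' :: t) (by simp)
    have hh : cj x h ∈ (lcsFilt N).S 1 := cj_mem hx h
    have hl : 1 ≤ (h' :: t).length := by simp
    have ih1 := adE_sound (h' :: t) (by simp) k u hk hu
    have hu' : comm u (cj x h) ∈ (lcsFilt N).S (k + 1) := (lcsFilt N).comm hu (t := 1) hh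
    have ih2 := adE_sound (h' :: t) (by simp) (k + 1) _ (by omega) hu'
    have s := ad_step (baseSys hc) (i := k) (j := (h' :: t).length) (k := 1) hk hl le_rfl hu hm hh
    have e0 : k + (h :: h' :: t).length = k + (h' :: t).length + 1 := by simp [add_assoc]
    rw [e0]
    show (baseSys hc).θ _ (comm u (comm (comR x (h' :: t)) (cj x h))) = _
    rw [s]
    have m1 : comm u (comR x (h' :: t)) ∈ (lcsFilt N).S (k + (h' :: t).length) :=
      (lcsFilt N).comm hu hm
    rw [← br_eq hc hx (by omega) m1 (cj_mem hx h), ih1,
      show k + (h' :: t).length + 1 = k + 1 + (h' :: t).length by omega, ih2,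
      ← br_eq hc hx hk hu (cj_mem hx h)]
    have e1 : ∀ L : List (ℤ × List G),
        brN hc (cj x h) ((L.map fun t => t.1 • brs hc x t.2 ((baseSys hc).θ k u)).sum) =
        (L.map fun t => t.1 • brs hc x (t.2 ++ [h]) ((baseSys hc).θ k u)).sum := by
      intro L
      induction L with
      | nil => simp
      | cons a L ihL =>
        simp only [List.map_cons, List.sum_cons, map_add, ihL, map_zsmul, brs_append]
        rfl
    rw [e1]
    simp only [adE]
    rw [sum_flatMap]
    simp only [List.map_cons, List.map_nil, List.sum_cons, List.sum_nil, add_zero, sum_map_add,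
      neg_smul]
    rw [sub_eq_add_neg]
    congr 1
    induction adE (h' :: t) with
    | nil => simp
    | cons a L ihL =>
      simp only [List.map_cons, List.sum_cons, neg_add, ihL]
      rfl

/-- Lie relations. -/
theorem lie_sound (l : List G) (hl : l ≠ []) (z : G) (rest : List G) :
    ev (val hc x) (lieRel l z rest) = 0 := by
  have hl' : l.reverse ≠ [] := by simpa using hl
  have h1 := val_reverse hc hx l.reverse hl'
  rw [List.reverse_reverse] at h1
  have hz : cj x z ∈ (lcsFilt N).S 1 := cj_mem hx z
  have hm := comR_mem hx l.reverse hl'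
  have h2 : val hc x (l ++ [z]) = - (baseSys hc).θ (1 + l.reverse.length)
      (comm (cj x z) (comR x l.reverse)) := by
    rw [val_append hc x hl, h1]
    show brN hc (cj x z) _ = _
    have hlen : 1 ≤ l.reverse.length := List.length_pos_iff.2 hl'
    rw [br_eq hc hx hlen hm (cj_mem hx z)]
    have e : comm (cj x z) (comR x l.reverse) = (comm (comR x l.reverse) (cj x z))⁻¹ := by
      unfold comm; group
    rw [e, Sys.inv _ (by omega) (by
      have := (lcsFilt N).comm hm hz
      rwa [add_comm] at this), neg_neg, add_comm]
  have h3 := adE_sound hc hx l.reverse hl' 1 _ le_rfl hz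
  rw [h3] at h2
  have h4 : val hc x (l ++ z :: rest) = brs hc x rest (val hc x (l ++ [z])) := by
    rw [← val_append hc x (by simp), List.append_assoc]; rfl
  rw [lieRel, ev_cons, one_smul]
  simp only
  rw [h4, h2, brs, comp_neg, comp_sum, List.map_map, ev, List.map_map, neg_add_eq_zero]
  congr 1
  apply List.map_congr_left
  intro t _
  simp only [Function.comp_apply, comp_zsmul]
  congr 1
  show _ = brs hc x (t.2 ++ rest) _
  rw [brs_append]
  rfl

omit hx in
theorem opG_brs (g : G) (l : List G) (v : List G → Last N c hc) :
    opG hc g (brs hc x l v) = brs hc x (l.map (· * g)) (opG hc g v) := by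
  induction l generalizing v with
  | nil => rfl
  | cons h t ih =>
    rw [List.map_cons, brs_cons, brs_cons, ih, opG_brN, cj_mul]

theorem opG_val (g : G) (l : List G) : opG hc g (val hc x l) = val hc x (l.map (· * g)) := by
  cases l with
  | nil => simp [val]
  | cons h t =>
    rw [val, opG_brs, List.map_cons, val, cj_mul]
    congr 1
    exact ((isOp hc g).2 le_rfl (show cj x h ∈ (lcsFilt N).S 1 from cj_mem hx h)).symm

theorem mop_val (g : G) (j : ℕ) (w : List G) (hw : w ≠ []) (vs : List G) :
    mop (opG hc g) j (vs.map fun h => brN hc (cj x h)) (val hc x w) =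
      ((pw (· * g) j w vs).map (val hc x)).sum := by
  have hne : ∀ (j : ℕ) (vs : List G), ∀ w' ∈ pw (· * g) j w vs, w' ≠ [] := by
    intro j
    induction j with
    | zero =>
      intro vs w' hw'
      cases vs with
      | nil =>
        rw [pw, List.mem_singleton] at hw'
        rw [hw']; exact hw
      | cons a vs => simp [pw] at hw'
    | succ j ih =>
      intro vs w' hw'
      simp only [pw, List.mem_flatMap, List.mem_map] at hw'
      obtain ⟨p, _, w'', hw'', rfl⟩ := hw'
      have := ih p.1 w'' hw''
      intro h0
      rw [List.append_eq_nil_iff, List.map_eq_nil_iff] at h0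
      exact this h0.1
  induction j generalizing vs with
  | zero => cases vs <;> simp [mop, pw]
  | succ j ih =>
    simp only [mop, pw, splits_map, List.map_map, Function.comp_def]
    rw [sum_flatMap]
    congr 1
    apply List.map_congr_left
    intro p _
    rw [ih p.1, List.map_map]
    have key : ∀ L : List (List G), (∀ w' ∈ L, w' ≠ []) →
        comp (p.2.map fun h => brN hc (cj x h)) (opG hc g ((L.map (val hc x)).sum)) =
        (L.map ((val hc x) ∘ fun w' => w'.map (· * g) ++ p.2)).sum := by
      intro L hL
      induction L with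
      | nil => simp [comp_zero]
      | cons a L ihL =>
        rw [List.map_cons, List.sum_cons, map_add, comp_add, List.map_cons, List.sum_cons,
          ihL fun w' h' => hL w' (List.mem_cons_of_mem _ h')]
        congr 1
        rw [opG_val hc hx, Function.comp_apply, val_append hc x]
        · rfl
        · intro h0
          rw [List.map_eq_nil_iff] at h0
          exact hL a List.mem_cons_self h0
    exact key _ (hne j p.1)

/-- The relations `(P_q)`. -/
theorem pq_sound (he : IsRightEngel 4 x) (g u : G) (vs rest : List G) :
    ev (val hc x) (pRel (· * g) u vs rest) = 0 := by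
  have hb : List.Forall₂ (fun n ψ => (baseSys hc).IsBr n ψ) (vs.map (cj x))
      (vs.map fun h => brN hc (cj x h)) := by
    rw [List.forall₂_map_left_iff, List.forall₂_map_right_iff]
    refine List.forall₂_same.2 fun h _ => isBr hc (cj_mem hx h)
  have h1 := engel_multi _ (baseSys hc) (isOp hc g)
    (show cj x u ∈ (lcsFilt N).S 1 from cj_mem hx u) (engel_cj he u) _ _ hb rfl
  have h0 : (baseSys hc).θ 1 (cj x u) = val hc x [u] := rfl
  rw [h0] at h1
  simp only [quartM, mop_val hc hx g _ [u] (by simp) vs] at h1
  have h2 := congrArg (brs hc x rest) h1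
  have hz : brs hc x rest (0 : List G → Last N c hc) = 0 := comp_zero _
  have hs : ∀ v v' : List G → Last N c hc, brs hc x rest (v + v') =
      brs hc x rest v + brs hc x rest v' := fun v v' => comp_add _ v v'
  have hd : ∀ v v' : List G → Last N c hc, brs hc x rest (v - v') =
      brs hc x rest v - brs hc x rest v' := fun v v' => by
    rw [sub_eq_add_neg, hs, sub_eq_add_neg]
    congr 1
    exact comp_neg _ _
  have hm : ∀ (n : ℕ) (v : List G → Last N c hc), brs hc x rest (n • v) =
      n • brs hc x rest v := fun n v => by
    have := comp_zsmul (rest.map fun h => brN hc (cj x h)) (n : ℤ) v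
    rwa [natCast_zsmul, natCast_zsmul] at this
  have hne : ∀ (j : ℕ) (vs : List G), ∀ w' ∈ pw (· * g) j [u] vs, w' ≠ [] := by
    intro j
    induction j with
    | zero =>
      intro vs w' hw'
      cases vs with
      | nil =>
        rw [pw, List.mem_singleton] at hw'
        rw [hw']; simp
      | cons a vs => simp [pw] at hw'
    | succ j ih =>
      intro vs w' hw'
      simp only [pw, List.mem_flatMap, List.mem_map] at hw'
      obtain ⟨p, _, w'', hw'', rfl⟩ := hw'
      have := ih p.1 w'' hw''
      intro h0
      rw [List.append_eq_nil_iff, List.map_eq_nil_iff] at h0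
      exact this h0.1
  have hl : ∀ (k : ℤ) (L : List (List G)), (∀ w' ∈ L, w' ≠ []) →
      ev (val hc x) (L.map fun w => (k, w ++ rest)) = k • brs hc x rest ((L.map (val hc x)).sum) := by
    intro k L hL
    induction L with
    | nil => simp [hz]
    | cons a L ihL =>
      rw [List.map_cons, ev_cons, ihL fun w' h' => hL w' (List.mem_cons_of_mem _ h'),
        List.map_cons, List.sum_cons, hs, smul_add]
      simp only
      rw [val_append hc x (hL a List.mem_cons_self)]
  simp only [hs, hd, hm, hz] at h2
  rw [← h2]
  simp only [pRel, List.flatMap_cons, List.flatMap_nil, List.append_nil, ev_append,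
    hl _ _ (hne _ vs)]
  simp only [w4, one_smul]
  simp only [neg_smul, ← natCast_zsmul]
  push_cast
  abel

/-- The unpolarised relation. -/
theorem np_sound (he : IsRightEngel 4 x) (u : G) (ms rest : List G) :
    ev (val hc x) (npRel u ms rest) = 0 := by
  set n : G := (ms.map (cj x)).prod with hn
  have hnm : ∀ l : List G, (l.map (cj x)).prod ∈ N := by
    intro l
    induction l with
    | nil => simp [one_mem]
    | cons a l ih => rw [List.map_cons, List.prod_cons]; exact mul_mem (cj_mem hx a) ih
  have hnN : n ∈ N := hnm ms
  set T := baseSys hc with hT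
  have hu : cj x u ∈ (lcsFilt N).S 1 := cj_mem hx u
  have hnS : n ∈ (lcsFilt N).S 1 := hnN
  -- the bracket with `n`
  have key : ∀ (l : List G) {k : ℕ} {w : G}, 1 ≤ k → w ∈ (lcsFilt N).S k →
      T.θ (k + 1) (comm w (l.map (cj x)).prod) = (l.map fun a => brN hc (cj x a) (T.θ k w)).sum := by
    intro l
    induction l with
    | nil =>
      intro k w hk hw
      have e : comm w (1 : G) = 1 := by unfold comm; group
      simp only [List.map_nil, List.prod_nil, List.sum_nil, e]
      exact T.one (by omega)
    | cons a l ih =>
      intro k w hk hw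
      rw [List.map_cons, List.prod_cons, List.map_cons, List.sum_cons,
        T.comm_add_right hk le_rfl hw (show cj x a ∈ (lcsFilt N).S 1 from cj_mem hx a)
          (show (l.map (cj x)).prod ∈ (lcsFilt N).S 1 from hnm l), ih hk hw,
        br_eq hc hx hk hw (cj_mem hx a)]
  have m2 : comm (cj x u) n ∈ (lcsFilt N).S 2 := (lcsFilt N).comm hu hnS
  have m3 : comm (comm (cj x u) n) n ∈ (lcsFilt N).S 3 := (lcsFilt N).comm m2 hnS
  have m4 : comm (comm (comm (cj x u) n) n) n ∈ (lcsFilt N).S 4 := (lcsFilt N).comm m3 hnS
  have h1 := key ms le_rfl hu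
  have h2 := key ms (by omega) m2
  have h3 := key ms (by omega) m3
  have h4 := key ms (by omega) m4
  rw [← hn] at h1 h2 h3 h4
  have h5 : engel (cj x u) n 4 = 1 := engel_cj he u n
  have h6 : comm (comm (comm (comm (cj x u) n) n) n) n = 1 := h5
  rw [h6, T.one (by omega), h3, h2, h1] at h4
  have hmap : ∀ (ψ : (List G → Last N c hc) →+ (List G → Last N c hc)) (l : List G)
      (f : G → (List G → Last N c hc)), ψ ((l.map f).sum) = (l.map fun a => ψ (f a)).sum := by
    intro ψ l f
    induction l with
    | nil => simp
    | cons a l ih => simp only [List.map_cons, List.sum_cons, map_add, ih]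
  simp only [hmap] at h4
  have h7 := congrArg (brs hc x rest) h4.symm
  have hz : brs hc x rest (0 : List G → Last N c hc) = 0 := comp_zero _
  have hsum : ∀ (l : List G) (f : G → (List G → Last N c hc)),
      brs hc x rest ((l.map f).sum) = (l.map fun a => brs hc x rest (f a)).sum := by
    intro l f
    rw [brs, comp_sum, List.map_map]
    rfl
  simp only [hsum, hz] at h7
  rw [← h7]
  -- reorder the sums
  have comm4 : ∀ f : G → G → G → G → (List G → Last N c hc),
      (ms.map fun d => (ms.map fun c' => (ms.map fun b => (ms.map fun a =>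
        f a b c' d).sum).sum).sum).sum =
      (ms.map fun a => (ms.map fun b => (ms.map fun c' => (ms.map fun d =>
        f a b c' d).sum).sum).sum).sum := by
    intro f
    have sw : ∀ (l l' : List G) (f : G → G → (List G → Last N c hc)),
        (l.map fun a => (l'.map fun b => f a b).sum).sum =
        (l'.map fun b => (l.map fun a => f a b).sum).sum := by
      intro l l' f
      induction l with
      | nil => simp
      | cons a l ih => simp only [List.map_cons, List.sum_cons, ih, sum_map_add]
    rw [sw ms ms]
    have e1 : ∀ c', (ms.map fun d => (ms.map fun b => (ms.map fun a => f a b c' d).sum).sum).sum =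
        (ms.map fun b => (ms.map fun a => (ms.map fun d => f a b c' d).sum).sum).sum := by
      intro c'
      rw [sw ms ms]
      congr 1
      apply List.map_congr_left
      intro b _
      exact sw ms ms _
    simp only [e1]
    rw [sw ms ms]
    have e2 : ∀ b, (ms.map fun c' => (ms.map fun a => (ms.map fun d => f a b c' d).sum).sum).sum =
        (ms.map fun a => (ms.map fun c' => (ms.map fun d => f a b c' d).sum).sum).sum := by
      intro b
      exact sw ms ms _
    simp only [e2]
    exact sw ms ms _
  rw [ev, npRel]
  simp only [sum_flatMap, List.map_map, Function.comp_def, one_smul]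
  symm
  exact comm4 fun a b c' d => brs hc x rest (brN hc (cj x d) (brN hc (cj x c')
    (brN hc (cj x b) (brN hc (cj x a) (T.θ 1 (cj x u))))))

end Sound

end L2

end Pool.Agent.Work.MP_d7201b_al
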